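import Pool.Agent.X62.MP.Nat
import Pool.Agent.X114.WR.Dim

/-!
MP_570bef_nt, Q1 (`G(k) ≤ 100 k`?): sums of `100 k` (of `2 s`) `k`-th powers in progressions modulo a prime
with a generic difference.

If `G(k) ≤ 100 k`, every progression `x, x + v, x + 2 v, ...` modulo a prime `q` of more than a bounded number
of terms contains the residue of a sum of `100 k` `k`-th powers which is less than `q`. We prove this for every
prime `q` and all but few differences `v`, uniformly in `x`, for progressions of length `q ^ (2 / 10 ^ 22)`.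
-/

set_option autoImplicit false

namespace Pool.Agent.Results.MP_570bef_nt.GenericProgressions

open Finset

/-- `n` is a sum of `t` `k`-th powers of positive integers. -/
def IsSum (k t n : ℕ) : Prop := ∃ x : Fin t → ℕ, (∀ i, 0 < x i) ∧ ∑ i, x i ^ k = n

/-- Every progression `x, x + v, ..., x + (L - 1) v` contains a number congruent modulo `q` to a sum of `t`
`k`-th powers of positive integers which is less than `q`. -/
def Meets (k t L q v : ℕ) : Prop :=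
  ∀ x : ℕ, ∃ r : ℕ, r < L ∧ ∃ n : ℕ, n < q ∧ IsSum k t n ∧ n ≡ x + r * v [MOD q]

/-- the exponent `(1 - 1 / k) ^ s` -/
noncomputable def μ (k s : ℕ) : ℝ := (1 - 1 / (k : ℝ)) ^ s

lemma μ_nonneg {k : ℕ} (hk : 2 ≤ k) (s : ℕ) : 0 ≤ μ k s := by
  have hk0 : (2 : ℝ) ≤ k := by exact_mod_cast hk
  exact pow_nonneg (by rw [sub_nonneg, div_le_one (by linarith)]; linarith) _

lemma μ_le_one {k : ℕ} (hk : 2 ≤ k) (s : ℕ) : μ k s ≤ 1 := by
  have hk0 : (2 : ℝ) ≤ k := by exact_mod_cast hk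
  have : (0 : ℝ) ≤ 1 / k := by positivity
  exact pow_le_one₀ (by rw [sub_nonneg, div_le_one (by linarith)]; linarith) (by linarith)

/-- the main estimate -/
theorem general (k s : ℕ) (hk : 2 ≤ k) : ∃ C : ℝ, 0 < C ∧ ∀ q : ℕ, q.Prime → ∀ L : ℕ, 1 ≤ L → L ≤ q →
    ∀ V : Finset ℕ, (∀ v ∈ V, 0 < v ∧ v < q ∧ ¬ Meets k (2 * s) L q v) →
      (V.card : ℝ) ≤ C * (q : ℝ) ^ (1 + μ k s) / L := by
  obtain ⟨c, hc, N0, H⟩ := Pool.Agent.X114.WR.dim_ranges k hk s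
  have hμ0 := μ_nonneg hk s
  have hμ1 := μ_le_one hk s
  change ∀ N : ℕ, N0 ≤ N → ∃ S : Finset ℕ, (∀ a ∈ S, a ≤ N ∧ Pool.Agent.X114.WR.Rep k s a) ∧
      c * (N : ℝ) ^ (1 - μ k s) ≤ S.card at H
  set m := μ k s with hm
  set N1 : ℕ := 2 * N0 + 3 with hN1
  have h4 : (0 : ℝ) < 4 ^ (1 - m) := by positivity
  refine ⟨N1 + 2 * (4 ^ (1 - m) / c), by positivity, ?_⟩
  intro q hq L hL hLq V hV
  have hq0 : 0 < q := hq.pos
  have hqr : (0 : ℝ) < q := by exact_mod_cast hq0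
  have hq1 : (1 : ℝ) ≤ q := by exact_mod_cast hq0
  have hLr : (1 : ℝ) ≤ L := by exact_mod_cast hL
  have hL0 : (0 : ℝ) < L := by linarith
  have hLqr : (L : ℝ) ≤ q := by exact_mod_cast hLq
  have hVq : (V.card : ℝ) ≤ q := by
    have h1 : V.card ≤ (range q).card := card_le_card fun v hv => mem_range.2 (hV v hv).2.1
    rw [card_range] at h1
    exact_mod_cast h1
  have hpow : (q : ℝ) ≤ (q : ℝ) ^ (1 + m) := by
    conv_lhs => rw [← Real.rpow_one (q : ℝ)]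
    exact Real.rpow_le_rpow_of_exponent_le hq1 (by linarith)
  have hpow0 : (0 : ℝ) < (q : ℝ) ^ (1 + m) := by positivity
  have hK : (0 : ℝ) ≤ 2 * (4 ^ (1 - m) / c) := by positivity
  rw [le_div_iff₀ hL0]
  rcases le_or_gt q N1 with hqN | hqN
  · have hqNr : (q : ℝ) ≤ N1 := by exact_mod_cast hqN
    calc (V.card : ℝ) * L ≤ q * q := mul_le_mul hVq hLqr hL0.le hqr.le
      _ ≤ N1 * (q : ℝ) ^ (1 + m) := mul_le_mul hqNr hpow hqr.le (by positivity)
      _ ≤ _ := mul_le_mul_of_nonneg_right (by linarith) hpow0.le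
  · set N : ℕ := (q - 1) / 2 with hN
    have hNN0 : N0 ≤ N := by omega
    obtain ⟨S, hS, hSc⟩ := H N hNN0
    have hNq : (q : ℝ) / 4 ≤ N := by
      have h1 : q ≤ 4 * N := by omega
      have h2 : (q : ℝ) ≤ 4 * N := by exact_mod_cast h1
      linarith
    have hNpow : (q : ℝ) ^ (1 - m) / 4 ^ (1 - m) ≤ (N : ℝ) ^ (1 - m) := by
      rw [← Real.div_rpow hqr.le (by norm_num)]
      exact Real.rpow_le_rpow (by positivity) hNq (by linarith)
    have hScard : c * ((q : ℝ) ^ (1 - m) / 4 ^ (1 - m)) ≤ S.card :=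
      (mul_le_mul_of_nonneg_left hNpow hc.le).trans hSc
    have hSpos : (0 : ℝ) < S.card := lt_of_lt_of_le (by positivity) hScard
    have hSne : S.Nonempty := card_pos.1 (by exact_mod_cast hSpos)
    set J : ℕ := (L + 1) / 2 with hJ
    have hJ1 : 1 ≤ J := by omega
    have hJq : J ≤ q := by omega
    have hJL : (L : ℝ) ≤ 2 * J := by
      have : L ≤ 2 * J := by omega
      exact_mod_cast this
    have hSq : ∀ a ∈ S, a < q := fun a ha => by have := (hS a ha).1; omega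
    have h1 := Pool.Agent.X62.MP.engine_nat q hq S S hSne hSne hSq hSq J hJ1 hJq V (by
      intro v hv
      obtain ⟨hv0, hvq, hbad⟩ := hV v hv
      refine ⟨hv0, hvq, ?_⟩
      unfold Meets at hbad
      push Not at hbad
      obtain ⟨x, hx⟩ := hbad
      refine ⟨x, fun a ha b hb r hr => ?_⟩
      apply hx r (by omega) (a + b)
      · have := (hS a ha).1
        have := (hS b hb).1
        omega
      · have := (hS a ha).2.add (hS b hb).2
        rwa [← two_mul] at this)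
    rw [Real.sqrt_mul_self hSpos.le] at h1
    have h2 : (V.card : ℝ) * L * S.card ≤ 2 * (q : ℝ) ^ 2 := by
      calc (V.card : ℝ) * L * S.card ≤ V.card * (2 * J) * S.card := by gcongr
        _ = 2 * (V.card * (J * S.card)) := by ring
        _ ≤ _ := by linarith
    have h3 : (V.card : ℝ) * L * (c * ((q : ℝ) ^ (1 - m) / 4 ^ (1 - m))) ≤ 2 * (q : ℝ) ^ 2 :=
      (mul_le_mul_of_nonneg_left hScard (by positivity)).trans h2
    have h5 : (q : ℝ) ^ 2 = (q : ℝ) ^ (1 + m) * (q : ℝ) ^ (1 - m) := by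
      rw [← Real.rpow_add hqr, ← Real.rpow_natCast]
      congr 1; push_cast; ring
    have h6 : (V.card : ℝ) * L ≤ 2 * (4 ^ (1 - m) / c) * (q : ℝ) ^ (1 + m) := by
      have h7 : (0 : ℝ) < c * ((q : ℝ) ^ (1 - m) / 4 ^ (1 - m)) := by positivity
      refine le_of_mul_le_mul_right ?_ h7
      refine h3.trans (le_of_eq ?_)
      rw [h5]
      field_simp
    refine h6.trans (mul_le_mul_of_nonneg_right ?_ hpow0.le)
    have : (0 : ℝ) ≤ N1 := by positivity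
    linarith

lemma μ_exp {k : ℕ} (hk : 2 ≤ k) (m : ℕ) : μ k (k * m) ≤ Real.exp (-m) := by
  have hk0 : (0 : ℝ) < k := by exact_mod_cast (by omega : 0 < k)
  have hk2 : (2 : ℝ) ≤ k := by exact_mod_cast hk
  have h0 : (0 : ℝ) ≤ 1 - 1 / (k : ℝ) := by rw [sub_nonneg, div_le_one hk0]; linarith
  have h1 : 1 - 1 / (k : ℝ) ≤ Real.exp (-(1 / k)) := by
    have := Real.add_one_le_exp (-(1 / (k : ℝ)))
    linarith
  calc μ k (k * m) ≤ Real.exp (-(1 / k)) ^ (k * m) := pow_le_pow_left₀ h0 h1 _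
    _ = Real.exp (-m) := by
        rw [← Real.exp_nat_mul]
        congr 1
        push_cast
        field_simp

lemma exp_neg_50 : Real.exp (-(50 : ℕ)) ≤ 2 * (10 : ℝ)⁻¹ ^ 22 := by
  have h1 := Real.exp_one_gt_d9
  have h2 : Real.exp (-(50 : ℕ)) = (Real.exp 1 ^ 50)⁻¹ := by
    rw [← Real.exp_nat_mul, ← Real.exp_neg]; norm_num
  rw [h2]
  have h3 : (2.7182818283 : ℝ) ^ 50 ≤ Real.exp 1 ^ 50 := pow_le_pow_left₀ (by norm_num) h1.le _
  have h4 : (Real.exp 1 ^ 50)⁻¹ ≤ ((2.7182818283 : ℝ) ^ 50)⁻¹ := inv_anti₀ (by positivity) h3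
  refine h4.trans ?_
  norm_num

lemma exp_neg_2 : Real.exp (-(2 : ℕ)) ≤ 0.1354 := by
  have h1 := Real.exp_one_gt_d9
  have h2 : Real.exp (-(2 : ℕ)) = (Real.exp 1 ^ 2)⁻¹ := by
    rw [← Real.exp_nat_mul, ← Real.exp_neg]; norm_num
  rw [h2]
  have h3 : (2.7182818283 : ℝ) ^ 2 ≤ Real.exp 1 ^ 2 := pow_le_pow_left₀ (by norm_num) h1.le _
  have h4 : (Real.exp 1 ^ 2)⁻¹ ≤ ((2.7182818283 : ℝ) ^ 2)⁻¹ := inv_anti₀ (by positivity) h3
  refine h4.trans ?_
  norm_num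

lemma exp_neg_1 : Real.exp (-(1 : ℕ)) ≤ 0.3679 := by
  have h1 := Real.exp_one_gt_d9
  have h2 : Real.exp (-(1 : ℕ)) = (Real.exp 1)⁻¹ := by
    rw [← Real.exp_neg]; norm_num
  rw [h2]
  have h4 : (Real.exp 1)⁻¹ ≤ ((2.7182818283 : ℝ))⁻¹ := inv_anti₀ (by positivity) h1.le
  refine h4.trans ?_
  norm_num

/-- with an upper bound for the exponent -/
theorem mono_exp {k s : ℕ} (hk : 2 ≤ k) {e : ℝ} (he : μ k s ≤ e) : ∃ C : ℝ, 0 < C ∧ ∀ q : ℕ, q.Prime →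
    ∀ L : ℕ, 1 ≤ L → L ≤ q → (({v : ℕ | 0 < v ∧ v < q ∧ ¬ Meets k (2 * s) L q v}.ncard : ℕ) : ℝ) ≤
      C * (q : ℝ) ^ (1 + e) / L := by
  obtain ⟨C, hC, h⟩ := general k s hk
  refine ⟨C, hC, fun q hq L hL hLq => ?_⟩
  have hfin : {v : ℕ | 0 < v ∧ v < q ∧ ¬ Meets k (2 * s) L q v}.Finite :=
    (Set.finite_lt_nat q).subset fun v hv => hv.2.1
  have h1 := h q hq L hL hLq hfin.toFinset (fun v hv => hfin.mem_toFinset.1 hv)
  rw [Set.ncard_eq_toFinset_card _ hfin]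
  refine h1.trans ?_
  have hq1 : (1 : ℝ) ≤ q := by exact_mod_cast hq.one_lt.le
  gcongr

/-- **Main theorem.** -/
theorem result :
    -- (1) `2 s` powers, progressions of length `L` modulo every prime `q`
    (∀ k s : ℕ, 2 ≤ k → ∃ C : ℝ, 0 < C ∧ ∀ q : ℕ, q.Prime → ∀ L : ℕ, 1 ≤ L → L ≤ q →
      (({v : ℕ | 0 < v ∧ v < q ∧ ¬ Meets k (2 * s) L q v}.ncard : ℕ) : ℝ) ≤
        C * (q : ℝ) ^ (1 + (1 - 1 / (k : ℝ)) ^ s) / L) ∧
    -- (2) `O(k)` powers, exponent `ε`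
    (∀ ε : ℝ, 0 < ε → ∃ B : ℕ, ∀ k : ℕ, 2 ≤ k → ∃ C : ℝ, 0 < C ∧ ∀ q : ℕ, q.Prime → ∀ L : ℕ, 1 ≤ L → L ≤ q →
      (({v : ℕ | 0 < v ∧ v < q ∧ ¬ Meets k (2 * (B * k)) L q v}.ncard : ℕ) : ℝ) ≤
        C * (q : ℝ) ^ (1 + ε) / L) ∧
    -- (3) `100 k`, `4 k` and `2 k` powers
    (∀ k : ℕ, 2 ≤ k → ∃ C : ℝ, 0 < C ∧ ∀ q : ℕ, q.Prime → ∀ L : ℕ, 1 ≤ L → L ≤ q →
      (({v : ℕ | 0 < v ∧ v < q ∧ ¬ Meets k (100 * k) L q v}.ncard : ℕ) : ℝ) ≤
        C * (q : ℝ) ^ (1 + 2 * (10 : ℝ)⁻¹ ^ 22) / L ∧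
      (({v : ℕ | 0 < v ∧ v < q ∧ ¬ Meets k (4 * k) L q v}.ncard : ℕ) : ℝ) ≤
        C * (q : ℝ) ^ (1 + 0.1354 : ℝ) / L ∧
      (({v : ℕ | 0 < v ∧ v < q ∧ ¬ Meets k (2 * k) L q v}.ncard : ℕ) : ℝ) ≤
        C * (q : ℝ) ^ (1 + 0.3679 : ℝ) / L) := by
  refine ⟨fun k s hk => mono_exp hk (le_refl _), fun ε hε => ?_, fun k hk => ?_⟩
  · obtain ⟨B, hB⟩ := exists_nat_gt (-Real.log ε)
    refine ⟨B, fun k hk => mono_exp (e := ε) hk ?_⟩
    rw [mul_comm B k]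
    refine (μ_exp hk B).trans ?_
    rw [← Real.exp_log hε, Real.exp_le_exp]
    linarith
  · obtain ⟨C1, hC1, h1⟩ := mono_exp (s := k * 50) hk ((μ_exp hk 50).trans exp_neg_50)
    obtain ⟨C2, hC2, h2⟩ := mono_exp (s := k * 2) hk ((μ_exp hk 2).trans exp_neg_2)
    obtain ⟨C3, hC3, h3⟩ := mono_exp (s := k * 1) hk ((μ_exp hk 1).trans exp_neg_1)
    have e1 : 2 * (k * 50) = 100 * k := by ring
    have e2 : 2 * (k * 2) = 4 * k := by ring
    have e3 : 2 * (k * 1) = 2 * k := by ring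
    rw [e1] at h1
    rw [e2] at h2
    rw [e3] at h3
    refine ⟨C1 + C2 + C3, by positivity, fun q hq L hL hLq => ⟨?_, ?_, ?_⟩⟩
    · refine (h1 q hq L hL hLq).trans ?_
      gcongr
      linarith
    · refine (h2 q hq L hL hLq).trans ?_
      gcongr
      linarith
    · refine (h3 q hq L hL hLq).trans ?_
      gcongr
      linarith

end Pool.Agent.Results.MP_570bef_nt.GenericProgressions
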