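import Mathlib
import Pool.Agent.X30.PT2

/-!
# `100 k` summands: `k`-th powers with bases from an arbitrary given set, and few pseudo-powers
-/

set_option autoImplicit false

namespace Pool.Agent.Results.MP_570bef_nt.RestrictedBasesHundredK

open MeasureTheory ProbabilityTheory

/-- the length of the gap `[n ^ k, (n + 1) ^ k)` -/
def gap (k n : ℕ) : ℕ := (n + 1) ^ k - n ^ k

/-- `B` has at least `P ^ (β - ε)` elements in `[P, 2 P)`, for every `ε > 0` and all large `P` -/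
def HasExponent (B : Set ℕ) (β : ℝ) : Prop :=
  ∀ ε : ℝ, 0 < ε → ∃ P0 : ℕ, ∀ P : ℕ, P0 ≤ P →
    (P : ℝ) ^ (β - ε) ≤ ((B ∩ Set.Ico P (2 * P)).ncard : ℝ)

theorem result (k t : ℕ) (hk : 2 ≤ k) (B : Set ℕ) (β : ℝ) (hβ0 : 0 ≤ β) (hβ1 : β ≤ 1)
    (hB : HasExponent B β) (ht : (1 - β) * k + β * k / 10 ^ 42 < t) (_ht : t ≤ 100 * k)
    {Ω : Type*} [MeasurableSpace Ω] (μ : Measure Ω) [IsProbabilityMeasure μ]
    (δ : ℕ → Ω → ℕ) (hm : ∀ n, Measurable (δ n)) (hind : iIndepFun δ μ)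
    (hu : ∀ n, ∀ d < gap k n, μ {ω | δ n ω = d} = 1 / (gap k n : ENNReal)) :
    ∀ᵐ ω ∂μ, ∃ N0 : ℕ, ∀ N : ℕ, N0 ≤ N → ∃ z : Fin (100 * k - t) → ℕ, ∃ x : Fin t → ℕ,
      (∀ i, 1 ≤ z i ∧ z i ∈ B) ∧ (∀ i, 1 ≤ x i) ∧
      N = ∑ i, (z i) ^ k + ∑ i, (x i ^ k + δ (x i) ω) :=
  Pool.Agent.X30.PT.mostly_exactB k (100 * k - t) t hk B β hβ0 hβ1 hB
    (Pool.Agent.X30.PT.crit k t hk β hβ0 ht) δ hm hind hu

end Pool.Agent.Results.MP_570bef_nt.RestrictedBasesHundredK
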