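import Pool.Agent.X62.MP.Three
import Pool.Agent.X114.WR.Dim

/-!
MP_570bef_nt, Q1 (`G(k) ≤ 100 k`?): for EVERY large prime `q`, every residue class modulo `q` contains a sum of
`100 k` `k`-th powers of positive integers which are at most `q ^ (1 / k + 2 / 10 ^ 14)`.
-/

set_option autoImplicit false

namespace Pool.Agent.Results.MP_570bef_nt.SmallVariablesEveryPrime

open Finset Filter

/-- `n` is a sum of `t` `k`-th powers of positive integers which are at most `Z`. -/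
def IsSumLe (k t : ℕ) (Z : ℝ) (n : ℕ) : Prop :=
  ∃ z : Fin t → ℕ, (∀ i, 0 < z i ∧ (z i : ℝ) ≤ Z) ∧ ∑ i, z i ^ k = n

/-- Every residue class modulo `q` contains a sum of `t` `k`-th powers of positive integers which are at most `Z`. -/
def AllClasses (k t : ℕ) (Z : ℝ) (q : ℕ) : Prop :=
  ∀ x : ℕ, ∃ n : ℕ, IsSumLe k t Z n ∧ n ≡ x [MOD q]

lemma IsSumLe.add {k s t : ℕ} {Z : ℝ} {a b : ℕ} (h1 : IsSumLe k s Z a) (h2 : IsSumLe k t Z b) :
    IsSumLe k (s + t) Z (a + b) := by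
  obtain ⟨x, hx, hx'⟩ := h1
  obtain ⟨y, hy, hy'⟩ := h2
  refine ⟨Fin.append x y, fun i => ?_, ?_⟩
  · refine Fin.addCases (fun i => ?_) (fun i => ?_) i
    · rw [Fin.append_left]; exact hx i
    · rw [Fin.append_right]; exact hy i
  · rw [Fin.sum_univ_add]
    simp only [Fin.append_left, Fin.append_right]
    rw [hx', hy']

lemma IsSumLe.mono {k t : ℕ} {Z Z' : ℝ} {n : ℕ} (h : IsSumLe k t Z n) (hZ : Z ≤ Z') : IsSumLe k t Z' n := by
  obtain ⟨x, hx, hx'⟩ := h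
  exact ⟨x, fun i => ⟨(hx i).1, (hx i).2.trans hZ⟩, hx'⟩

lemma IsSumLe.scale {k t : ℕ} {Z : ℝ} {n : ℕ} (h : IsSumLe k t Z n) {y : ℕ} (hy : 0 < y) :
    IsSumLe k t (y * Z) (y ^ k * n) := by
  obtain ⟨x, hx, hx'⟩ := h
  refine ⟨fun i => y * x i, fun i => ⟨Nat.mul_pos hy (hx i).1, ?_⟩, ?_⟩
  · push_cast
    exact mul_le_mul_of_nonneg_left (hx i).2 (Nat.cast_nonneg _)
  · rw [← hx', mul_sum]
    exact sum_congr rfl fun i _ => mul_pow _ _ _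

lemma IsSumLe.ones (k t : ℕ) {Z : ℝ} (hZ : 1 ≤ Z) : IsSumLe k t Z t :=
  ⟨fun _ => 1, fun _ => ⟨one_pos, by simpa using hZ⟩, by simp⟩

lemma IsSumLe.of_rep {k s q a : ℕ} (hk : 2 ≤ k) (h : Pool.Agent.X114.WR.Rep k s a) (ha : a < q) :
    IsSumLe k s ((q : ℝ) ^ (1 / (k : ℝ))) a := by
  obtain ⟨x, hx, hx'⟩ := h
  refine ⟨x, fun i => ⟨hx i, ?_⟩, hx'⟩
  have h1 : x i ^ k ≤ a := by
    rw [← hx']
    exact single_le_sum (f := fun i => x i ^ k) (fun _ _ => Nat.zero_le _) (mem_univ i)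
  have h2 : ((x i : ℝ)) ^ k ≤ q := by exact_mod_cast h1.trans ha.le
  have hk0 : (k : ℝ) ≠ 0 := by exact_mod_cast (by omega : k ≠ 0)
  calc (x i : ℝ) = ((x i : ℝ) ^ k) ^ (1 / (k : ℝ)) := by
        rw [← Real.rpow_natCast, ← Real.rpow_mul (Nat.cast_nonneg _), mul_one_div_cancel hk0, Real.rpow_one]
    _ ≤ _ := Real.rpow_le_rpow (by positivity) h2 (by positivity)

lemma AllClasses.mono {k t q : ℕ} {Z Z' : ℝ} (h : AllClasses k t Z q) (hZ : Z ≤ Z') : AllClasses k t Z' q := by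
  intro x
  obtain ⟨n, hn, hn'⟩ := h x
  exact ⟨n, hn.mono hZ, hn'⟩

/-- additional summands `1` -/
lemma AllClasses.pad {k t q : ℕ} {Z : ℝ} (hq : 0 < q) (h : AllClasses k t Z q) (hZ : 1 ≤ Z) (r : ℕ) :
    AllClasses k (t + r) Z q := by
  intro x
  obtain ⟨n, hn, hn'⟩ := h (x + r * (q - 1))
  refine ⟨n + r, hn.add (IsSumLe.ones k r hZ), ?_⟩
  have h1 : x + r * (q - 1) + r = x + r * q := by
    obtain ⟨p, rfl⟩ : ∃ p, q = p + 1 := ⟨q - 1, by omega⟩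
    rw [Nat.add_sub_cancel]; ring
  calc n + r ≡ x + r * (q - 1) + r [MOD q] := hn'.add_right r
    _ = x + r * q := h1
    _ ≡ x [MOD q] := by
        unfold Nat.ModEq
        rw [Nat.add_mul_mod_self_right]

/-- the exponent `(1 - 1 / k) ^ s` -/
noncomputable def μ (k s : ℕ) : ℝ := (1 - 1 / (k : ℝ)) ^ s

lemma μ_nonneg {k : ℕ} (hk : 2 ≤ k) (s : ℕ) : 0 ≤ μ k s := by
  have hk0 : (2 : ℝ) ≤ k := by exact_mod_cast hk
  exact pow_nonneg (by rw [sub_nonneg, div_le_one (by linarith)]; linarith) _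

lemma μ_le_one {k : ℕ} (hk : 2 ≤ k) (s : ℕ) : μ k s ≤ 1 := by
  have hk0 : (2 : ℝ) ≤ k := by exact_mod_cast hk
  have : (0 : ℝ) ≤ 1 / k := by positivity
  exact pow_le_one₀ (by rw [sub_nonneg, div_le_one (by linarith)]; linarith) (by linarith)

lemma μ_exp {k : ℕ} (hk : 2 ≤ k) (m : ℕ) : μ k (k * m) ≤ Real.exp (-m) := by
  have hk0 : (0 : ℝ) < k := by exact_mod_cast (by omega : 0 < k)
  have hk2 : (2 : ℝ) ≤ k := by exact_mod_cast hk
  have h0 : (0 : ℝ) ≤ 1 - 1 / (k : ℝ) := by rw [sub_nonneg, div_le_one hk0]; linarith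
  have h1 : 1 - 1 / (k : ℝ) ≤ Real.exp (-(1 / k)) := by
    have := Real.add_one_le_exp (-(1 / (k : ℝ)))
    linarith
  calc μ k (k * m) ≤ Real.exp (-(1 / k)) ^ (k * m) := pow_le_pow_left₀ h0 h1 _
    _ = Real.exp (-m) := by
        rw [← Real.exp_nat_mul]
        congr 1
        push_cast
        field_simp

lemma exp_neg_33 : 3 * Real.exp (-(33 : ℕ)) < 2 * (10 : ℝ)⁻¹ ^ 14 := by
  have h1 := Real.exp_one_gt_d9
  have h2 : Real.exp (-(33 : ℕ)) = (Real.exp 1 ^ 33)⁻¹ := by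
    rw [← Real.exp_nat_mul, ← Real.exp_neg]; norm_num
  rw [h2]
  have h3 : (2.7182818283 : ℝ) ^ 33 ≤ Real.exp 1 ^ 33 := pow_le_pow_left₀ (by norm_num) h1.le _
  have h4 : (Real.exp 1 ^ 33)⁻¹ ≤ ((2.7182818283 : ℝ) ^ 33)⁻¹ := inv_anti₀ (by positivity) h3
  refine (mul_le_mul_of_nonneg_left h4 (by norm_num)).trans_lt ?_
  norm_num

/-- the main estimate -/
theorem general (k s : ℕ) (hk : 2 ≤ k) : ∃ C : ℝ, 0 < C ∧ ∀ q : ℕ, q.Prime → ∀ Y : ℕ, Y < q →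
    C * (q : ℝ) ^ (3 * μ k s) ≤ Y → AllClasses k (3 * s) (Y * (q : ℝ) ^ (1 / (k : ℝ))) q := by
  obtain ⟨c, hc, N0, HN⟩ := Pool.Agent.X114.WR.dim_ranges k hk s
  have hμ0 := μ_nonneg hk s
  have hμ1 := μ_le_one hk s
  change ∀ N : ℕ, N0 ≤ N → ∃ S : Finset ℕ, (∀ a ∈ S, a ≤ N ∧ Pool.Agent.X114.WR.Rep k s a) ∧
      c * (N : ℝ) ^ (1 - μ k s) ≤ S.card at HN
  set m := μ k s with hm
  have hk0 : (0 : ℝ) < k := by exact_mod_cast (by omega : 0 < k)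
  refine ⟨8 * k / c ^ 3 + (N0 + 2), by positivity, fun q hq Y hYq hY => ?_⟩
  have hq2 := hq.two_le
  have hq1 : (1 : ℝ) ≤ q := by exact_mod_cast (by omega : 1 ≤ q)
  have hqr : (0 : ℝ) < q := by linarith
  have hpow1 : (1 : ℝ) ≤ (q : ℝ) ^ (3 * m) := Real.one_le_rpow hq1 (by linarith)
  have hYqr : (Y : ℝ) < q := by exact_mod_cast hYq
  have hK : (0 : ℝ) ≤ 8 * k / c ^ 3 := by positivity
  have hN0r : (0 : ℝ) ≤ N0 := Nat.cast_nonneg _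
  have hYge : (8 * k / c ^ 3 + (N0 + 2) : ℝ) ≤ Y := by
    refine le_trans ?_ hY
    exact le_mul_of_one_le_right (by positivity) hpow1
  have hqN : N0 ≤ q - 1 := by
    have h1 : (N0 : ℝ) + 2 < q := by linarith
    have h2 : N0 + 2 < q := by exact_mod_cast h1
    omega
  have hY1 : 1 ≤ Y := by
    have h1 : (1 : ℝ) ≤ Y := by linarith
    exact_mod_cast h1
  obtain ⟨S, hS, hSc⟩ := HN (q - 1) hqN
  have hSge : c / 2 * (q : ℝ) ^ (1 - m) ≤ S.card := by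
    refine le_trans ?_ hSc
    have h1 : (q : ℝ) / 2 ≤ ((q - 1 : ℕ) : ℝ) := by
      have h3 : q ≤ 2 * (q - 1) := by omega
      have h4 : (q : ℝ) ≤ 2 * ((q - 1 : ℕ) : ℝ) := by exact_mod_cast h3
      linarith
    have h2 : ((q : ℝ) / 2) ^ (1 - m) ≤ ((q - 1 : ℕ) : ℝ) ^ (1 - m) :=
      Real.rpow_le_rpow (by positivity) h1 (by linarith)
    have h3 : (q : ℝ) ^ (1 - m) / 2 ≤ ((q : ℝ) / 2) ^ (1 - m) := by
      rw [Real.div_rpow hqr.le (by norm_num)]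
      apply div_le_div_of_nonneg_left (by positivity) (by positivity)
      calc (2 : ℝ) ^ (1 - m) ≤ (2 : ℝ) ^ (1 : ℝ) := Real.rpow_le_rpow_of_exponent_le (by norm_num) (by linarith)
        _ = 2 := Real.rpow_one 2
    calc c / 2 * (q : ℝ) ^ (1 - m) = c * ((q : ℝ) ^ (1 - m) / 2) := by ring
      _ ≤ c * ((q - 1 : ℕ) : ℝ) ^ (1 - m) := mul_le_mul_of_nonneg_left (h3.trans h2) hc.le
  have hSpos : (0 : ℝ) < S.card := lt_of_lt_of_le (by positivity) hSge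
  have hSne : S.Nonempty := card_pos.1 (by exact_mod_cast hSpos)
  have hSq : ∀ a ∈ S, a < q := fun a ha => by have := (hS a ha).1; omega
  -- a good multiplier
  have hgood : ∃ y : ℕ, 1 ≤ y ∧ y ≤ Y ∧ ∀ x : ℕ, ∃ a ∈ S, ∃ b ∈ S, ∃ c ∈ S, a + c + y ^ k * b ≡ x [MOD q] := by
    by_contra hcon
    push Not at hcon
    have h1 := Pool.Agent.X62.MP.three q hq k (by omega) S hSne hSq Y hYq (fun y hy1 hy2 => hcon y hy1 hy2)
    have h2 : (c / 2 * (q : ℝ) ^ (1 - m)) ^ 3 ≤ (S.card : ℝ) ^ 3 := pow_le_pow_left₀ (by positivity) hSge 3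
    have h3 : (Y : ℝ) * (c / 2 * (q : ℝ) ^ (1 - m)) ^ 3 ≤ k * (q : ℝ) ^ 3 :=
      (mul_le_mul_of_nonneg_left h2 (Nat.cast_nonneg _)).trans h1
    have h4 : ((q : ℝ) ^ (1 - m)) ^ 3 * (q : ℝ) ^ (3 * m) = (q : ℝ) ^ 3 := by
      rw [← Real.rpow_natCast, ← Real.rpow_natCast, ← Real.rpow_mul hqr.le, ← Real.rpow_add hqr]
      congr 1
      push_cast
      ring
    have h5 : (0 : ℝ) < ((q : ℝ) ^ (1 - m)) ^ 3 := by positivity
    have h6 : (Y : ℝ) * c ^ 3 ≤ 8 * k * (q : ℝ) ^ (3 * m) := by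
      rw [mul_pow, ← h4] at h3
      have h7 : (Y : ℝ) * c ^ 3 * ((q : ℝ) ^ (1 - m)) ^ 3 ≤
          8 * k * (q : ℝ) ^ (3 * m) * ((q : ℝ) ^ (1 - m)) ^ 3 := by nlinarith
      exact le_of_mul_le_mul_right h7 h5
    have h8 : (Y : ℝ) ≤ 8 * k / c ^ 3 * (q : ℝ) ^ (3 * m) := by
      rw [div_mul_eq_mul_div, le_div_iff₀ (by positivity)]
      exact h6
    have h9 : (0 : ℝ) < (N0 + 2) * (q : ℝ) ^ (3 * m) := by positivity
    nlinarith
  obtain ⟨y, hy1, hy2, hy⟩ := hgood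
  intro x
  obtain ⟨a, ha, b, hb, c', hc', hmod⟩ := hy x
  have hq0 : (0 : ℝ) < (q : ℝ) ^ (1 / (k : ℝ)) := by positivity
  have hY1r : (1 : ℝ) ≤ Y := by exact_mod_cast hY1
  have hle : (q : ℝ) ^ (1 / (k : ℝ)) ≤ Y * (q : ℝ) ^ (1 / (k : ℝ)) := le_mul_of_one_le_left hq0.le hY1r
  have e1 := (IsSumLe.of_rep hk (hS a ha).2 (hSq a ha)).mono hle
  have e2 := (IsSumLe.of_rep hk (hS c' hc').2 (hSq c' hc')).mono hle
  have e3 : IsSumLe k s (Y * (q : ℝ) ^ (1 / (k : ℝ))) (y ^ k * b) :=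
    ((IsSumLe.of_rep hk (hS b hb).2 (hSq b hb)).scale (by omega : 0 < y)).mono
      (mul_le_mul_of_nonneg_right (by exact_mod_cast hy2) hq0.le)
  refine ⟨a + c' + y ^ k * b, ?_, hmod⟩
  have e4 := (e1.add e2).add e3
  rwa [show s + s + s = 3 * s by ring] at e4

/-- variables at most `q ^ (1 / k + ε)` -/
theorem small {k s : ℕ} (hk : 2 ≤ k) {ε : ℝ} (hε : 3 * μ k s < ε) (hε1 : ε < 1) : ∃ q₀ : ℕ, ∀ q : ℕ,
    q₀ ≤ q → q.Prime → AllClasses k (3 * s) ((q : ℝ) ^ (1 / (k : ℝ) + ε)) q := by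
  obtain ⟨C, hC, h⟩ := general k s hk
  have hμ0 := μ_nonneg hk s
  have h1 : Tendsto (fun N : ℕ => ((N : ℝ)) ^ (ε - 3 * μ k s)) atTop atTop :=
    (tendsto_rpow_atTop (by linarith)).comp tendsto_natCast_atTop_atTop
  obtain ⟨q₀, hq₀⟩ := eventually_atTop.1 (h1.eventually_ge_atTop (C + 1))
  refine ⟨q₀, fun q hq hprime => ?_⟩
  have hq2 := hprime.two_le
  have hq1 : (1 : ℝ) < q := by exact_mod_cast hprime.one_lt
  have hqr : (0 : ℝ) < q := by linarith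
  have hpow1 : (1 : ℝ) ≤ (q : ℝ) ^ (3 * μ k s) := Real.one_le_rpow hq1.le (by linarith)
  set Y : ℕ := ⌈C * (q : ℝ) ^ (3 * μ k s)⌉₊ with hY
  have hY1 : C * (q : ℝ) ^ (3 * μ k s) ≤ Y := Nat.le_ceil _
  have hY2 : (Y : ℝ) ≤ (q : ℝ) ^ ε := by
    have h2 : (Y : ℝ) < C * (q : ℝ) ^ (3 * μ k s) + 1 := Nat.ceil_lt_add_one (by positivity)
    have h3 : (q : ℝ) ^ ε = (q : ℝ) ^ (ε - 3 * μ k s) * (q : ℝ) ^ (3 * μ k s) := by
      rw [← Real.rpow_add hqr]; congr 1; ring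
    rw [h3]
    calc (Y : ℝ) ≤ C * (q : ℝ) ^ (3 * μ k s) + 1 := h2.le
      _ ≤ C * (q : ℝ) ^ (3 * μ k s) + (q : ℝ) ^ (3 * μ k s) := by linarith
      _ = (C + 1) * (q : ℝ) ^ (3 * μ k s) := by ring
      _ ≤ _ := mul_le_mul_of_nonneg_right (hq₀ q hq) (by linarith)
  have hY3 : Y < q := by
    have h4 : (q : ℝ) ^ ε < q := by
      conv_rhs => rw [← Real.rpow_one (q : ℝ)]
      exact Real.rpow_lt_rpow_of_exponent_lt hq1 hε1
    have h5 : (Y : ℝ) < q := hY2.trans_lt h4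
    exact_mod_cast h5
  refine (h q hprime Y hY3 hY1).mono ?_
  rw [add_comm (1 / (k : ℝ)) ε, Real.rpow_add hqr]
  exact mul_le_mul_of_nonneg_right hY2 (by positivity)

/-- **Main theorem.** -/
theorem result :
    -- (1) `3 s` powers
    (∀ k s : ℕ, 2 ≤ k → ∃ C : ℝ, 0 < C ∧ ∀ q : ℕ, q.Prime → ∀ Y : ℕ, Y < q →
      C * (q : ℝ) ^ (3 * (1 - 1 / (k : ℝ)) ^ s) ≤ Y →
        AllClasses k (3 * s) (Y * (q : ℝ) ^ (1 / (k : ℝ))) q) ∧
    -- (2) `O(k)` powers, variables at most `q ^ (1 / k + ε)`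
    (∀ ε : ℝ, 0 < ε → ∃ B : ℕ, ∀ k : ℕ, 2 ≤ k → ∃ q₀ : ℕ, ∀ q : ℕ, q₀ ≤ q → q.Prime →
      AllClasses k (B * k) ((q : ℝ) ^ (1 / (k : ℝ) + ε)) q) ∧
    -- (3) `100 k` powers
    (∀ k : ℕ, 2 ≤ k → ∃ q₀ : ℕ, ∀ q : ℕ, q₀ ≤ q → q.Prime →
      AllClasses k (100 * k) ((q : ℝ) ^ (1 / (k : ℝ) + 2 * (10 : ℝ)⁻¹ ^ 14)) q) := by
  refine ⟨fun k s hk => general k s hk, fun ε hε => ?_, fun k hk => ?_⟩
  · set ε' : ℝ := min ε (1 / 2) with hε'
    have hε'0 : 0 < ε' := lt_min hε (by norm_num)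
    have hε'1 : ε' < 1 := (min_le_right _ _).trans_lt (by norm_num)
    obtain ⟨B, hB⟩ := exists_nat_gt (-Real.log (ε' / 3))
    refine ⟨3 * B, fun k hk => ?_⟩
    have h1 : 3 * μ k (k * B) < ε' := by
      have h2 : μ k (k * B) < ε' / 3 := by
        refine (μ_exp hk B).trans_lt ?_
        rw [← Real.exp_log (show 0 < ε' / 3 by positivity), Real.exp_lt_exp]
        linarith
      linarith
    obtain ⟨q₀, h⟩ := small hk h1 hε'1
    refine ⟨q₀, fun q hq hprime => ?_⟩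
    have h3 := h q hq hprime
    rw [show 3 * (k * B) = 3 * B * k by ring] at h3
    refine h3.mono (Real.rpow_le_rpow_of_exponent_le (by exact_mod_cast hprime.one_lt.le) ?_)
    have := min_le_left ε (1 / 2)
    linarith
  · have h1 : 3 * μ k (k * 33) < 2 * (10 : ℝ)⁻¹ ^ 14 :=
      (mul_le_mul_of_nonneg_left (μ_exp hk 33) (by norm_num)).trans_lt exp_neg_33
    obtain ⟨q₀, h⟩ := small hk h1 (by norm_num)
    refine ⟨q₀, fun q hq hprime => ?_⟩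
    have h3 := (h q hq hprime).pad hprime.pos
      (Real.one_le_rpow (by exact_mod_cast hprime.one_lt.le) (by positivity)) k
    rwa [show 3 * (k * 33) + k = 100 * k by ring] at h3

end Pool.Agent.Results.MP_570bef_nt.SmallVariablesEveryPrime
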